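import Pool.Agent.X14.LG4

/-!
# Integrality of the normalised partial sums of the series with `(5k+1)` and ratio `-192`
-/

set_option autoImplicit false

namespace Pool.Agent.Results.MP_6a8d80_nt.Integrality

open Finset

/-- `a n = (1 / (n (2n+1) C(2n,n))) Σ_{k<n} (5k+1) C(2k,k)^2 C(3k,k) (-192)^(n-1-k)`. -/
def a (n : ℕ) : ℚ :=
  1 / ((n : ℚ) * (2 * n + 1) * ((2 * n).choose n : ℚ)) *
    ∑ k ∈ range n, (5 * (k : ℚ) + 1) * ((2 * k).choose k : ℚ) ^ 2 * ((3 * k).choose k : ℚ) * (-192) ^ (n - 1 - k)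

/-- For every `n ≥ 2`: if `2n+1` is not a power of `3` then `a n` is an integer; if `2n+1` is a power
of `3` then `3 a n` is an integer that is not divisible by `3`. -/
theorem result (n : ℕ) (hn : 2 ≤ n) :
    ((¬ ∃ m : ℕ, 2 * n + 1 = 3 ^ m) → ∃ z : ℤ, a n = z) ∧
    ((∃ m : ℕ, 2 * n + 1 = 3 ^ m) → ∃ z : ℤ, 3 * a n = z ∧ ¬ (3 : ℤ) ∣ z) := by
  obtain ⟨r, rfl⟩ : ∃ r, n = r + 1 := ⟨n - 1, by omega⟩
  have e : a (r + 1) = Pool.Agent.X14.LG.a5 (r + 1) := by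
    unfold a Pool.Agent.X14.LG.a5
    rw [div_mul_eq_mul_div, one_mul]
  have e2 : 2 * (r + 1) + 1 = 2 * r + 3 := by ring
  rw [e, e2]
  exact ⟨fun h => Pool.Agent.X14.LG.a5_int r (by omega) h, fun h => Pool.Agent.X14.LG.a5_special r (by omega) h⟩

end Pool.Agent.Results.MP_6a8d80_nt.Integrality
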